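import Mathlib
import Pool.Agent.Helper82.IW.Goals
import Pool.Agent.Helper30.Brouwer.Kakutani

/-!
# Project IW, packet GAL: Galerkin solution by Brouwer's theorem
-/

open Complex MeasureTheory Set Filter Topology
open scoped ContDiff ComplexConjugate

namespace Pool.Agent.Helper11.IW

open Pool.Agent.Helper82.IW

noncomputable section

theorem isCompact_Q : IsCompact Q := isCompact_Icc.reProdIm isCompact_Icc

theorem continuous_ex (k : ℤ × ℤ) : Continuous (ex k) := by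
  unfold ex
  fun_prop

theorem Rr_pos {ε : ℝ} (hε : 0 < ε) (H : ℂ → ℂ) (z : ℂ) : 0 < Rr ε H z :=
  Real.sqrt_pos.2 (by positivity)

theorem norm_le_Rr (ε : ℝ) (H : ℂ → ℂ) (z : ℂ) : ‖H z‖ ≤ Rr ε H z :=
  Real.le_sqrt_of_sq_le (by nlinarith [sq_nonneg ε])

theorem norm_Gf_le {ε : ℝ} (hε : 0 < ε) (U W : ℂ → ℂ) (z : ℂ) : ‖Gf ε U W z‖ ≤ 1 := by
  have hR := Rr_pos hε (fun w => W w - U w) z
  have h1 : ‖((max (1 - ‖zb W z‖) 0 : ℝ) : ℂ)‖ ≤ 1 := by
    rw [Complex.norm_real, Real.norm_eq_abs, abs_of_nonneg (le_max_right _ _)]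
    exact max_le (by linarith [norm_nonneg (zb W z)]) zero_le_one
  have h2 : ‖(W z - U z) / (Rr ε (fun w => W w - U w) z : ℂ)‖ ≤ 1 := by
    rw [norm_div, Complex.norm_real, Real.norm_eq_abs, abs_of_pos hR, div_le_one hR]
    exact norm_le_Rr ε (fun w => W w - U w) z
  unfold Gf
  rw [norm_mul]
  calc _ ≤ 1 * 1 := mul_le_mul h1 h2 (norm_nonneg _) zero_le_one
    _ = 1 := one_mul 1

/-- Extension by zero. -/
def ext0 (n : ℕ) (c : box n → ℂ) (k : ℤ × ℤ) : ℂ := if h : k ∈ box n then c ⟨k, h⟩ else 0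

theorem ext0_apply {n : ℕ} (c : box n → ℂ) {k : ℤ × ℤ} (h : k ∈ box n) : ext0 n c k = c ⟨k, h⟩ := by
  simp [ext0, h]

theorem continuous_ext0 (n : ℕ) (k : ℤ × ℤ) : Continuous fun c : box n → ℂ => ext0 n c k := by
  by_cases h : k ∈ box n
  · simp only [ext0, h, dite_true]
    exact continuous_apply _
  · simp only [ext0, h, dite_false]
    exact continuous_const

theorem continuous_tp_joint (n : ℕ) (m : ℤ × ℤ → ℂ) :
    Continuous fun x : (box n → ℂ) × ℂ => tp n (fun k => m k * ext0 n x.1 k) x.2 := by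
  unfold tp
  refine continuous_finsetSum _ fun k _ => ?_
  exact (continuous_const.mul ((continuous_ext0 n k).comp continuous_fst)).mul
    ((continuous_ex k).comp continuous_snd)

theorem continuous_Gf_joint (hTPD : S_TPD) (n : ℕ) {ε : ℝ} (hε : 0 < ε) {U : ℂ → ℂ}
    (hU : Continuous U) :
    Continuous fun x : (box n → ℂ) × ℂ => Gf ε U (tp n (ext0 n x.1)) x.2 := by
  have h1 : Continuous fun x : (box n → ℂ) × ℂ => tp n (ext0 n x.1) x.2 := by
    have := continuous_tp_joint n (fun _ => 1)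
    simpa using this
  have h2 : Continuous fun x : (box n → ℂ) × ℂ => zb (tp n (ext0 n x.1)) x.2 := by
    have e : (fun x : (box n → ℂ) × ℂ => zb (tp n (ext0 n x.1)) x.2) =
        fun x => tp n (fun k => -(2 * (Real.pi : ℂ) ^ 2 * ((k.1 : ℂ) + I * (k.2 : ℂ)) ^ 2) *
          ext0 n x.1 k) x.2 := by
      funext x
      exact (hTPD n (ext0 n x.1)).2.2 x.2
    rw [e]
    exact continuous_tp_joint n _
  have h3 : Continuous fun x : (box n → ℂ) × ℂ => tp n (ext0 n x.1) x.2 - U x.2 :=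
    h1.sub (hU.comp continuous_snd)
  have h4 : Continuous fun x : (box n → ℂ) × ℂ =>
      Rr ε (fun w => tp n (ext0 n x.1) w - U w) x.2 := by
    unfold Rr
    exact Real.continuous_sqrt.comp (((h3.norm).pow 2).add continuous_const)
  unfold Gf
  refine Continuous.mul ?_ (h3.div₀ ?_ ?_)
  · exact Complex.continuous_ofReal.comp ((continuous_const.sub h2.norm).max continuous_const)
  · exact Complex.continuous_ofReal.comp h4
  · intro x
    exact_mod_cast (Rr_pos hε _ _).ne'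

theorem continuous_Gf (hTPD : S_TPD) (n : ℕ) {ε : ℝ} (hε : 0 < ε) {U : ℂ → ℂ}
    (hU : Continuous U) (c : box n → ℂ) : Continuous fun w => Gf ε U (tp n (ext0 n c)) w := by
  have h0 : Continuous fun w : ℂ => ((c, w) : (box n → ℂ) × ℂ) :=
    Continuous.prodMk continuous_const continuous_id
  exact Continuous.comp (g := fun x : (box n → ℂ) × ℂ => Gf ε U (tp n (ext0 n x.1)) x.2)
    (f := fun w : ℂ => ((c, w) : (box n → ℂ) × ℂ)) (continuous_Gf_joint hTPD n hε hU) h0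

theorem fixed_point {ι : Type*} [Fintype ι] (F : (ι → ℂ) → (ι → ℂ)) (hF : Continuous F) {r : ℝ}
    (hr : 0 ≤ r) (hb : ∀ c, ‖F c‖ ≤ r) : ∃ c, F c = c := by
  obtain ⟨c, -, hc⟩ := Pool.Agent.Helper30.Brouwer.brouwer_fd
    (Metric.closedBall (0 : ι → ℂ) r) (isCompact_closedBall _ _)
    (convex_closedBall _ _) ⟨0, Metric.mem_closedBall_self hr⟩ F hF.continuousOn
    (fun c _ => by simpa using hb c)
  exact ⟨c, hc⟩

theorem norm_ex (k : ℤ × ℤ) (z : ℂ) : ‖ex k z‖ = 1 := by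
  unfold ex
  exact Complex.norm_exp_ofReal_mul_I _

/-- The denominators. -/
def Dk (κ : ℝ) (k : ℤ × ℤ) : ℂ :=
  -(2 * (Real.pi : ℂ) ^ 2 * ((k.1 : ℂ) ^ 2 + (k.2 : ℂ) ^ 2)) - (κ : ℂ)

theorem Dk_norm {κ : ℝ} (hκ : 0 < κ) (k : ℤ × ℤ) : κ ≤ ‖Dk κ k‖ := by
  have h0 : 0 ≤ 2 * Real.pi ^ 2 * ((k.1 : ℝ) ^ 2 + (k.2 : ℝ) ^ 2) := by positivity
  have e : Dk κ k = ((-(2 * Real.pi ^ 2 * ((k.1 : ℝ) ^ 2 + (k.2 : ℝ) ^ 2) + κ) : ℝ) : ℂ) := by
    unfold Dk
    push_cast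
    ring
  rw [e, Complex.norm_real, Real.norm_eq_abs, abs_neg, abs_of_nonneg (by linarith)]
  linarith

theorem Dk_ne {κ : ℝ} (hκ : 0 < κ) (k : ℤ × ℤ) : Dk κ k ≠ 0 := fun h => by
  have := Dk_norm hκ k
  rw [h, norm_zero] at this
  linarith

/-- The Fourier coefficients. -/
def Jk (n : ℕ) (ε : ℝ) (U : ℂ → ℂ) (K : ℤ × ℤ → ℝ) (c : box n → ℂ) (k : ℤ × ℤ) : ℂ :=
  (K k : ℂ) * ∫ w in Q, conj (ex k w) * Gf ε U (tp n (ext0 n c)) w

theorem continuous_Jk (hTPD : S_TPD) (n : ℕ) {ε : ℝ} (hε : 0 < ε) {U : ℂ → ℂ}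
    (hU : Continuous U) (K : ℤ × ℤ → ℝ) (k : ℤ × ℤ) : Continuous fun c => Jk n ε U K c k := by
  refine continuous_const.mul ?_
  have h1 := continuous_Gf_joint hTPD n hε hU
  have h2 : Continuous fun x : (box n → ℂ) × ℂ => conj (ex k x.2) :=
    Complex.continuous_conj.comp ((continuous_ex k).comp continuous_snd)
  have h : Continuous (Function.uncurry fun (c : box n → ℂ) (w : ℂ) =>
      conj (ex k w) * Gf ε U (tp n (ext0 n c)) w) := h2.mul h1
  exact continuous_parametric_integral_of_continuous h isCompact_Q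

theorem norm_Jk_le (n : ℕ) {ε : ℝ} (hε : 0 < ε) (U : ℂ → ℂ)
    {K : ℤ × ℤ → ℝ} (hK : ∀ k, 0 ≤ K k ∧ K k ≤ 1) (c : box n → ℂ) (k : ℤ × ℤ) :
    ‖Jk n ε U K c k‖ ≤ volume.real Q := by
  have h1 : ‖∫ w in Q, conj (ex k w) * Gf ε U (tp n (ext0 n c)) w‖ ≤ 1 * volume.real Q := by
    refine norm_setIntegral_le_of_norm_le_const isCompact_Q.measure_lt_top fun w _ => ?_
    rw [norm_mul, RCLike.norm_conj, norm_ex, one_mul]
    exact norm_Gf_le hε _ _ _
  have h2 : ‖(K k : ℂ)‖ ≤ 1 := by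
    rw [Complex.norm_real, Real.norm_eq_abs, abs_of_nonneg (hK k).1]
    exact (hK k).2
  calc ‖Jk n ε U K c k‖ =
        ‖(K k : ℂ)‖ * ‖∫ w in Q, conj (ex k w) * Gf ε U (tp n (ext0 n c)) w‖ :=
          norm_mul _ _
    _ ≤ 1 * (1 * volume.real Q) := mul_le_mul h2 h1 (norm_nonneg _) zero_le_one
    _ = volume.real Q := by ring

/-- The map of the fixed point argument. -/
def Fk (n : ℕ) (κ ε : ℝ) (U : ℂ → ℂ) (K : ℤ × ℤ → ℝ) (c : box n → ℂ) : box n → ℂ :=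
  fun k => Jk n ε U K c k / Dk κ k

theorem exists_fixed (hTPD : S_TPD) (n : ℕ) {κ ε : ℝ} (hκ : 0 < κ) (hε : 0 < ε) {U : ℂ → ℂ}
    (hU : Continuous U) {K : ℤ × ℤ → ℝ} (hK : ∀ k, 0 ≤ K k ∧ K k ≤ 1) :
    ∃ c, Fk n κ ε U K c = c := by
  have hM0 : 0 ≤ volume.real Q := measureReal_nonneg
  refine fixed_point (Fk n κ ε U K) ?_ (r := volume.real Q / κ) (div_nonneg hM0 hκ.le) ?_
  · refine continuous_pi fun k => ?_
    exact (continuous_Jk hTPD n hε hU K k).div_const _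
  · intro c
    rw [pi_norm_le_iff_of_nonneg (div_nonneg hM0 hκ.le)]
    intro k
    unfold Fk
    rw [norm_div]
    exact div_le_div₀ hM0 (norm_Jk_le n hε U hK c k) hκ (Dk_norm hκ k)

theorem tp_congr {n : ℕ} {a b : ℤ × ℤ → ℂ} (h : ∀ k ∈ box n, a k = b k) (z : ℂ) :
    tp n a z = tp n b z :=
  Finset.sum_congr rfl fun k hk => by rw [h k hk]

theorem tp_sub_mul (n : ℕ) (a b : ℤ × ℤ → ℂ) (κ : ℂ) (z : ℂ) :
    tp n a z - κ * tp n b z = tp n (fun k => a k - κ * b k) z := by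
  unfold tp
  rw [Finset.mul_sum, ← Finset.sum_sub_distrib]
  exact Finset.sum_congr rfl fun k _ => by ring

theorem fixed_coeff {n : ℕ} {κ ε : ℝ} (hκ : 0 < κ) {U : ℂ → ℂ} {K : ℤ × ℤ → ℝ} {c : box n → ℂ}
    (hc : Fk n κ ε U K c = c) {k : ℤ × ℤ} (hk : k ∈ box n) :
    Dk κ k * ext0 n c k = Jk n ε U K c k := by
  have h1 : ext0 n c k = Jk n ε U K c k / Dk κ k := by
    rw [ext0_apply c hk]
    exact (congrFun hc ⟨k, hk⟩).symm
  rw [h1, mul_div_cancel₀ _ (Dk_ne hκ k)]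

/-- **Packet GAL.** -/
theorem GAL (hMO1 : S_MO1) (hTPD : S_TPD) : S_GAL := by
  intro n κ ε U hκ hε hU
  obtain ⟨K, hK, hMo⟩ := hMO1 n
  obtain ⟨c, hc⟩ := exists_fixed hTPD n hκ hε hU hK
  refine ⟨ext0 n c, fun z => ?_⟩
  have h1 := hMo _ (continuous_Gf hTPD n hε hU c) z
  have h2 := (hTPD n (ext0 n c)).2.1 z
  rw [h1, h2, tp_sub_mul]
  refine tp_congr (fun k hk => ?_) z
  have h3 := fixed_coeff hκ hc hk
  unfold Dk Jk at h3
  linear_combination h3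

end

end Pool.Agent.Helper11.IW
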